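import Pool.Agent.Y889.CF.AllScales

/-!
Conjecture F with the true constant for all but few triples of height at most `H`, for all lengths
`(log H)^B ≤ x ≤ H / (log H)^B` simultaneously.
-/

set_option autoImplicit false

namespace Pool.Agent.Results.MP_a17b09_nt.AllScales

open Finset Filter Topology

/-- the triple `(a, b, c)` is admissible -/
def Admissible (a b c : ℤ) : Prop :=
  0 < a ∧ (∀ d : ℤ, d ∣ a → d ∣ b → d ∣ c → IsUnit d) ∧ ¬ ((2 : ℤ) ∣ a + b ∧ (2 : ℤ) ∣ c) ∧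
    ¬ IsSquare (b ^ 2 - 4 * a * c)

/-- the products in the constant `C(a, b, c)` of Conjecture F, over the primes up to `z` -/
noncomputable def CF (a b c : ℤ) (z : ℕ) : ℝ :=
  (if (2 : ℤ) ∣ a + b then 1 else 1 / 2) *
  (∏ p ∈ (range (z + 1)).filter (fun p : ℕ => p.Prime ∧ 3 ≤ p ∧ (p : ℤ) ∣ a ∧ (p : ℤ) ∣ b),
    (p : ℝ) / (p - 1)) *
  ∏ p ∈ (range (z + 1)).filter (fun p : ℕ => p.Prime ∧ 3 ≤ p ∧ ¬ (p : ℤ) ∣ a),
    (1 - (jacobiSym (b ^ 2 - 4 * a * c) p : ℝ) / (p - 1))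

/-- the number of `1 ≤ t ≤ x` with `|a t² + b t + c|` prime -/
def cp (a b c : ℤ) (x : ℕ) : ℕ :=
  #((Icc 1 x).filter (fun t : ℕ => (a * (t : ℤ) ^ 2 + b * t + c).natAbs.Prime))

/-- the sum of `1 / log |a t² + b t + c|` over `1 ≤ t ≤ x` with `|a t² + b t + c| ≥ 2` -/
noncomputable def ls (a b c : ℤ) (x : ℕ) : ℝ :=
  ∑ t ∈ (Icc 1 x).filter (fun t : ℕ => 2 ≤ |a * (t : ℤ) ^ 2 + b * t + c|),
    1 / Real.log (|a * (t : ℤ) ^ 2 + b * t + c| : ℤ)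

/-- the triples `(a, b, c)` with `1 ≤ a ≤ H` and `|b|, |c| ≤ H` -/
noncomputable def Tr (H : ℕ) : Finset (ℤ × ℤ × ℤ) :=
  Icc (1 : ℤ) H ×ˢ Icc (-(H : ℤ)) H ×ˢ Icc (-(H : ℤ)) H

/-- For every `U` there are `B` and `H₀` such that for `H ≥ H₀` and all admissible triples of
height at most `H` outside a set of at most `#(Tr H) / (log H)^U` triples, the constant
`C = C(a, b, c)` exists, is positive, and for **all** `x` with
`(log H)^B ≤ x ≤ H / (log H)^B` the number of `t ≤ x` with `|f(t)|` prime is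
`2 C ∑_{t ≤ x} 1 / log |f(t)|` up to a relative error `(log H)^{-U}`. -/
theorem result (U : ℕ) : ∃ B H₀ : ℕ, ∀ H : ℕ, H₀ ≤ H →
    ∃ Bad ⊆ Tr H, (#Bad : ℝ) ≤ #(Tr H) / Real.log H ^ U ∧
    ∀ t ∈ Tr H, t ∉ Bad → Admissible t.1 t.2.1 t.2.2 →
      ∃ C : ℝ, 0 < C ∧ Tendsto (fun z => CF t.1 t.2.1 t.2.2 z) atTop (𝓝 C) ∧
      ∀ x : ℕ, Real.log H ^ B ≤ x → (x : ℝ) * Real.log H ^ B ≤ H →
        |(cp t.1 t.2.1 t.2.2 x : ℝ) - 2 * C * ls t.1 t.2.1 t.2.2 x| ≤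
          2 * C * ls t.1 t.2.1 t.2.2 x / Real.log H ^ U :=
  Pool.Agent.Y889.CF.all_scales U

end Pool.Agent.Results.MP_a17b09_nt.AllScales
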