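import Mathlib
import Pool.Agent.Y887.QK.GenR

/-!
# Exact values of multiplicative functions at all admissible quadratic polynomials in all reduced residue classes

There are ABSOLUTE constants `K`, `r₀` and `d₀ ≥ 1` such that for EVERY admissible triple `(α, β, γ)` (as in
Conjecture F), every residue class `t` modulo `q` with `g t = α t² + β t + γ` prime to `q`, every `M`, every
`r ≥ r₀`, every `b ≥ 1` and all large `X` at least `X / (log X) ^ K` integers `n ≤ X`, `n ≡ t` modulo `q`, are such
that `g n` has no prime factor `≤ M` and EXACTLY `r` distinct prime factors, and as many are such that `g n` has no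
prime factor `≤ M` and exactly `d₀ * b` divisors.  Up to a power of the logarithm this is the order of magnitude
which Conjecture F predicts for the prime values.  These are the cases `F = ω`, `F = τ` of a theorem on all
multiplicative functions whose values at the prime powers `p ^ e` depend only on `e`, for which the parity
obstruction of the sieve is absent: some relation `∏ f (u_i) = ∏ f (v_j)` has `∑ u_i = ∑ v_j + 1`.

Proof.  Let `D` be the discriminant.  For a prime `ℓ` and a point `(b, v)`, `v < ℓ / E`, of the modular hyperbola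
`b v = c` modulo `ℓ` the matrix with rows `(ℓ, q b)`, `(q v, d)` has determinant one, and
`P (x) = (ℓ x + q b)² - D (q v x + d)²` is a positive form of discriminant `D` (up to normalisation).  If
`x - y = h` divides `P y` then `P x * P y = h² (N² - D)`; here `N ≤ C ℓ²` and every `N` arises boundedly often.  A
sieve on the points of the hyperbola (incomplete Kloosterman sums, Weil's bound, fundamental lemma in large
dimension) makes the values `P (x_i)` at the vertices `x_i` of a fixed bipartite design rough with few prime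
factors; the private prime powers of the edges realise the relation and remove the dependence on the undecided
number of prime factors.  Modulo small numbers `N` is `y₀² + y₀ - D` for a base point `y₀`, and `N² - D` is the
product of `(y₀² - D) ((y₀ + 1)² - D)` and of numbers which do not depend on `D`.  This is used for `D w²` and
`y₀ = w t'`, `t' = 2 α n' + β`, where `2 α q` divides `w`: then `N = w T`, `T ≡ t'` modulo `w`, so that
`T = 2 α n + β` and `n ≡ n' ≡ t` modulo `q`, and
`g n / g n'` is the product of `w² (t'² - D) + 2 w t' + 1` and of numbers which do not depend on `g`.  A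
preliminary sieve in dimension two gives `n'` for which `g n' * (w² (t'² - D) + 2 w t' + 1)` is squarefree, without
prime factors `≤ M` and with boundedly many prime factors, the bound being absolute; the finitely many possible
values of `F` at these numbers are absorbed into the constant `Φ`.
-/

set_option autoImplicit false

namespace Pool.Agent.Results.MP_a17b09_nt.ExactValuesInProgressions

open Filter

/-- The triples of Conjecture F. -/
def Admissible (α β γ : ℤ) : Prop :=
  0 < α ∧ Int.gcd (Int.gcd α β) γ = 1 ∧ ¬ (Even (α + β) ∧ Even γ) ∧ ¬ IsSquare (β ^ 2 - 4 * α * γ)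

/-- The value at `n` of the multiplicative function whose value at every prime power `p ^ e`, `e ≥ 1`, is
`f e`, with values in a commutative group. -/
def F {Γ : Type} [CommGroup Γ] (f : ℕ → Γ) (n : ℕ) : Γ :=
  ∏ p ∈ n.primeFactors, f (n.factorization p)

theorem adm {α β γ : ℤ} (h : Admissible α β γ) : Pool.Agent.Y887.QKG.AdmP α β γ := by
  obtain ⟨h0, h1, h2, h3⟩ := h
  refine ⟨h0, h3, ?_, ?_⟩
  · rintro p hp ⟨ha, hb, hc⟩
    have h4 : (p : ℤ) ∣ ((Int.gcd (Int.gcd α β) γ : ℕ) : ℤ) :=
      Int.dvd_coe_gcd (Int.dvd_coe_gcd ha hb) hc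
    rw [h1] at h4
    have h5 : p ∣ 1 := by exact_mod_cast h4
    exact hp.one_lt.ne' (Nat.dvd_one.1 h5)
  · rintro ⟨ha, hb⟩
    exact h2 ⟨even_iff_two_dvd.2 ha, even_iff_two_dvd.2 hb⟩

/-- **Exact values of multiplicative functions at all admissible quadratic polynomials in progressions.**

(a)  Let `F` be the multiplicative function with the values `f e` at all prime powers `p ^ e`, with values in a
commutative group, such that for some finite multisets `u`, `v` of positive integers, with `∑ u = ∑ v + 1`, the
products of the `f j`, `j ∈ u`, and of the `f j`, `j ∈ v`, are equal.  There are an element `Φ` of the group and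
a number `K`, depending only on `f`, such that for EVERY admissible triple `(α, β, γ)`, with
`g n = α n² + β n + γ`, for every residue class `t` modulo `q ≥ 1` for which `g t` is prime to `q`, for every
element `δ` of the monoid generated by the `f j`, `j ≥ 1`, and every `M` there is `C` such that for all large `X`
at least `X / (log X) ^ K` integers `n ≤ X`, `n ≡ t` modulo `q`, satisfy: `g n = k s`, where `F (k s) = Φ * δ`, all
prime factors of `k s` are `> M`, `k ≤ C` and `s` is squarefree with all prime factors larger than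
`X ^ (1 / K)`.

(b)  There are ABSOLUTE constants `K`, `r₀` and `d₀ ≥ 1` such that for every admissible triple, every `q ≥ 1` and
`t` with `g t` prime to `q`, every `M`, `r ≥ r₀`, `b ≥ 1` and for all large `X` at least `X / (log X) ^ K`
integers `n ≤ X`, `n ≡ t` modulo `q`, are such that all prime factors of `g n` are `> M` and `g n` has exactly `r`
distinct prime factors, and at least `X / (log X) ^ K` integers `n ≤ X`, `n ≡ t` modulo `q`, are such that all
prime factors of `g n` are `> M` and `g n` has exactly `d₀ * b` divisors. -/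
theorem result :
    (∀ (Γ : Type) [CommGroup Γ] (f : ℕ → Γ) (u v : Multiset ℕ),
      (∀ j ∈ u, 1 ≤ j) → (∀ j ∈ v, 1 ≤ j) → u.sum = v.sum + 1 →
      (u.map f).prod = (v.map f).prod →
      ∃ (Φ : Γ) (K : ℕ), ∀ α β γ : ℤ, Admissible α β γ →
        ∀ (q : ℕ) (t : ℤ), 0 < q → IsCoprime (α * t ^ 2 + β * t + γ) (q : ℤ) →
        ∀ δ ∈ Submonoid.closure (f '' {j | 1 ≤ j}), ∀ M : ℕ, ∃ C : ℕ,
          ∀ᶠ X : ℕ in atTop, (X : ℝ) / Real.log X ^ K ≤
            ({n : ℕ | n ≤ X ∧ (n : ℤ) ≡ t [ZMOD q] ∧
              ∃ k s : ℕ, α * n ^ 2 + β * n + γ = ((k * s : ℕ) : ℤ) ∧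
              F f (k * s) = Φ * δ ∧ (∀ p : ℕ, p.Prime → p ∣ k * s → M < p) ∧ k ≤ C ∧
              Squarefree s ∧ ∀ p : ℕ, p.Prime → p ∣ s → X < p ^ K}.ncard : ℝ)) ∧
    (∃ K r₀ d₀ : ℕ, 0 < d₀ ∧ ∀ α β γ : ℤ, Admissible α β γ →
      ∀ (q : ℕ) (t : ℤ), 0 < q → IsCoprime (α * t ^ 2 + β * t + γ) (q : ℤ) →
      ∀ M r b : ℕ, r₀ ≤ r → 1 ≤ b → ∀ᶠ X : ℕ in atTop,
        (X : ℝ) / Real.log X ^ K ≤
          ({n : ℕ | n ≤ X ∧ (n : ℤ) ≡ t [ZMOD q] ∧
            (∀ p : ℕ, p.Prime → (p : ℤ) ∣ α * n ^ 2 + β * n + γ → M < p) ∧
            (α * n ^ 2 + β * n + γ).natAbs.primeFactors.card = r}.ncard : ℝ) ∧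
        (X : ℝ) / Real.log X ^ K ≤
          ({n : ℕ | n ≤ X ∧ (n : ℤ) ≡ t [ZMOD q] ∧
            (∀ p : ℕ, p.Prime → (p : ℤ) ∣ α * n ^ 2 + β * n + γ → M < p) ∧
            (α * n ^ 2 + β * n + γ).natAbs.divisors.card = d₀ * b}.ncard : ℝ)) := by
  constructor
  · intro Γ _ f u v hu hv hsum huv
    obtain ⟨Φ, K, h⟩ := Pool.Agent.Y887.QKG.prog_all f u v hu hv hsum huv
    refine ⟨Φ, K, fun α β γ ha q t hq hc δ hδ M => ?_⟩
    have ha' := adm ha
    obtain ⟨C, hC⟩ := h α β γ ha'.1 ha'.2.1 ha'.2.2.1 ha'.2.2.2 q t hq hc δ hδ M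
    refine ⟨C, hC.mono fun X hX => hX.trans ?_⟩
    refine Nat.cast_le.2 (Set.ncard_le_ncard ?_ ((Set.finite_Iic X).subset fun n hn => hn.1))
    rintro n ⟨hn, hnt, h2⟩
    exact ⟨hn, (Int.modEq_iff_dvd.2 hnt).symm, h2⟩
  · obtain ⟨K, r₀, d₀, hd, h⟩ := Pool.Agent.Y887.QKG.omega_tau
    exact ⟨K, r₀, d₀, hd, fun α β γ ha q t hq hc M r b hr hb =>
      h α β γ (adm ha) q t hq hc M r b hr hb⟩

end Pool.Agent.Results.MP_a17b09_nt.ExactValuesInProgressions
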