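import Pool.Agent.Y677.KU.QuadEx

set_option autoImplicit false

/-!
# Narrow arithmetic progressions of values of admissible quadratic polynomials `a n ^ 2 + b n + c` with few prime factors, explicit numbers

Let `R a b c s` be the set of the `n` for which all prime factors of `a n ^ 2 + b n + c` are larger than
`n ^ (1 / s)`, and `P a b c r s` the set of the `n` in `R a b c s` for which `a n ^ 2 + b n + c` has at most `r` prime
factors. For instance `r = 3`, `s = 5`, intervals `(X, X + Y]` with `X ^ θ ≤ Y ≤ X`, `θ > 4 / 5`.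
For an ARBITRARY subset `A` of `R a b c s` all but a small proportion of the expected number of elements
of `A` in every short interval are terms of `l`-term arithmetic progressions inside `A` with
difference at most `(log X) ^ B`.
-/

namespace Pool.Agent.Results.MP_a17b09_nt.NarrowProgressions

open Finset Filter
open Pool.Agent.TH977.PW (N)
open Pool.Agent.Y677.RSZ (InProg Outside)

/-- The admissible triples of Conjecture F. -/
def Admissible (a b c : ℤ) : Prop :=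
  0 < a ∧ Int.gcd (Int.gcd a b) c = 1 ∧ ¬ (Even (a + b) ∧ Even c) ∧ ¬ IsSquare (b ^ 2 - 4 * a * c)

/-- All prime factors of `a n ^ 2 + b n + c` are larger than `n ^ (1 / s)`. -/
def R (a b c : ℤ) (s : ℕ) : Set ℕ :=
  {n | ∀ p : ℕ, p.Prime → (p : ℤ) ∣ a * (n : ℤ) ^ 2 + b * n + c → (n : ℝ) ^ (1 / (s : ℝ)) < (p : ℝ)}

/-- The `n` of `R a b c s` for which `a n ^ 2 + b n + c` has at most `r` prime factors. -/
def P (a b c : ℤ) (r s : ℕ) : Set ℕ :=
  {n | n ∈ R a b c s ∧ (a * (n : ℤ) ^ 2 + b * n + c).natAbs.primeFactorsList.length ≤ r}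

/-- **Narrow progressions of values with few prime factors of an admissible quadratic polynomial.** -/
theorem result (a b c : ℤ) (h : Admissible a b c) (r s : ℕ) (hr : 1 ≤ r) (hs : 2 ≤ s) :
    (∀ n : ℕ, b.natAbs + c.natAbs + 2 ≤ n → (a * (n : ℤ) ^ 2 + b * n + c).natAbs.Prime →
      n ∈ P a b c r s) ∧
    (∀ θ : ℝ, 0 < θ → θ ≤ 1 → 8 < θ * (3 * r + 1) → 2 < θ * r - (r - 1) / s → 2 < θ * s →
      (∃ κ : ℝ, 0 < κ ∧ ∀ᶠ X : ℕ in atTop, ∀ Y : ℕ, (X : ℝ) ^ θ ≤ Y → Y ≤ X →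
        κ * Y / Real.log X ≤ N (P a b c r s) X (X + Y)) ∧
      ∀ l : ℕ, ∃ B : ℕ, ∀ᶠ X : ℕ in atTop, ∀ Y : ℕ, (X : ℝ) ^ θ ≤ Y → Y ≤ X →
        ∃ u d : ℕ, 1 ≤ d ∧ (d : ℝ) ≤ Real.log X ^ B ∧
          ∀ i < l, u + i * d ∈ P a b c r s ∧ X < u + i * d ∧ u + i * d ≤ X + Y) ∧
    ∀ θ : ℝ, 0 < θ → ∀ l : ℕ, 2 ≤ l → ∀ ε : ℝ, 0 < ε → ∃ B : ℕ, ∀ᶠ X : ℕ in atTop, ∀ Y : ℕ,
      (X : ℝ) ^ θ ≤ Y → Y ≤ X → ∀ A : Set ℕ, A ⊆ R a b c s →
        (N (Outside A l (Real.log X ^ B) X (X + Y)) X (X + Y) : ℝ) ≤ ε * Y / Real.log X := by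
  obtain ⟨ha, hgcd, hpar, hD⟩ := h
  have hg : ∀ p : ℕ, p.Prime → ¬ ((p : ℤ) ∣ a ∧ (p : ℤ) ∣ b ∧ (p : ℤ) ∣ c) := by
    rintro p hp ⟨h1, h2, h3⟩
    have h4 : (p : ℤ) ∣ (Int.gcd a b : ℤ) := Int.dvd_coe_gcd h1 h2
    have h5 : (p : ℤ) ∣ (Int.gcd (Int.gcd a b) c : ℤ) := Int.dvd_coe_gcd h4 h3
    rw [hgcd] at h5
    have h6 : p ∣ 1 := by exact_mod_cast h5
    exact hp.one_lt.ne' (Nat.dvd_one.1 h6)
  refine ⟨?_, Pool.Agent.Y677.KU.quad_explicit a b c ha hg hD hpar r s hs (R a b c s) (P a b c r s)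
    (fun n hn => hn.1) (fun m hm p hp hd => hm p hp hd) (fun m h1 h2 => ⟨h1, h2⟩)⟩
  intro n hn hprime
  refine ⟨fun p hp hd => Pool.Agent.Y175.PW.rough_of_prime s n _ hs (by omega) hprime
      (Pool.Agent.Y175.PW.quad_large a b c ha n hn) p hp hd, ?_⟩
  rw [Nat.primeFactorsList_prime hprime]
  exact hr

end Pool.Agent.Results.MP_a17b09_nt.NarrowProgressions
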