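import Pool.Agent.Y879.GL.QuadU
import Pool.Agent.Y879.GL.Pattern

set_option autoImplicit false

/-!
The gaps between the almost prime values of `a t ^ 2 + b t + c`, uniformly in the polynomial: for
every `A` and `B`, all large `X` and ALL admissible triples `(a, b, c)` with coefficients at most
`X ^ A` whose truncated Hardy-Littlewood constant is at most `B`, the `t` for which
`a t ^ 2 + b t + c` has no prime factor up to `X ^ (1 / r)` have the expected density in every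
interval of length at least `X ^ θ`, and the gaps between them follow the exponential (Gamma) laws.
-/

namespace Pool.Agent.Results.MP_a17b09_nt.UniformGammaLaw

open Finset Polynomial Filter

/-- `a t ^ 2 + b t + c` has no prime factor `p ≤ X ^ (1 / r)` -/
def Good (a b c : ℤ) (X r t : ℕ) : Prop :=
  ∀ p : ℕ, p.Prime → (p : ℝ) ≤ (X : ℝ) ^ (1 / (r : ℝ)) → ¬ (p : ℤ) ∣ a * (t : ℤ) ^ 2 + b * t + c

/-- the number of roots of `a t ^ 2 + b t + c` modulo `p` -/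
def omega (a b c : ℤ) (p : ℕ) : ℕ :=
  ((range p).filter (fun t : ℕ => (p : ℤ) ∣ a * (t : ℤ) ^ 2 + b * t + c)).card

/-- the primes `p ≤ X ^ (1 / r)` -/
noncomputable def P (X r : ℕ) : Finset ℕ := (Icc 1 ⌊(X : ℝ) ^ (1 / (r : ℝ))⌋₊).filter Nat.Prime

/-- the density -/
noncomputable def V (a b c : ℤ) (X r : ℕ) : ℝ := ∏ p ∈ P X r, (1 - (omega a b c p : ℝ) / p)

/-- the truncated Hardy-Littlewood (Bateman-Horn) constant -/
noncomputable def HL (a b c : ℤ) (X r : ℕ) : ℝ :=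
  ∏ p ∈ P X r, (1 - (omega a b c p : ℝ) / p) / (1 - 1 / (p : ℝ))

open Classical in
/-- the number of good `t` in `(u, u + Y]` with fewer than `k` good numbers in `[t - T, t)` -/
noncomputable def Near (a b c : ℤ) (X r k T u Y : ℕ) : ℕ :=
  ((Ioc u (u + Y)).filter (fun t => Good a b c X r t ∧
    ((Ico (t - T) t).filter (Good a b c X r)).card < k)).card

lemma good_iff (a b c : ℤ) (X r t : ℕ) : Good a b c X r t ↔ Pool.Agent.TH464.PO.Sf
      (Pool.Agent.W123.RU.Poly.Q (Pool.Agent.TH464.PO.qs a b c)) ⌊(X : ℝ) ^ (1 / (r : ℝ))⌋₊ t := by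
  unfold Good Pool.Agent.TH464.PO.Sf
  constructor
  · intro h p hp hQ
    obtain ⟨hp1, hp2⟩ := Pool.Agent.H373R2.T7.mem_pz.1 hp
    exact h p hp2 ((Nat.le_floor_iff (by positivity)).1 hp1) ((Pool.Agent.TH464.PO.qs_Q a b c p t).1 hQ)
  · intro h p hp hpr hd
    exact h p (Pool.Agent.H373R2.T7.mem_pz.2 ⟨Nat.le_floor hpr, hp⟩)
      ((Pool.Agent.TH464.PO.qs_Q a b c p t).2 hd)

open Classical in
lemma omega_eq (a b c : ℤ) (p : ℕ) : omega a b c p = Pool.Agent.H373R2.T7.nuB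
      (Pool.Agent.W123.RU.Poly.Q (Pool.Agent.TH464.PO.qs a b c)) p := by
  unfold omega Pool.Agent.H373R2.T7.nuB
  apply congrArg Finset.card
  ext t
  rw [mem_filter, mem_filter, Pool.Agent.TH464.PO.qs_Q]

lemma V_eq (a b c : ℤ) (X r : ℕ) : V a b c X r = Pool.Agent.W123.RP.Vq
      (Pool.Agent.W123.RU.Poly.Q (Pool.Agent.TH464.PO.qs a b c)) ⌊(X : ℝ) ^ (1 / (r : ℝ))⌋₊ := by
  unfold V Pool.Agent.W123.RP.Vq
  apply Finset.prod_congr rfl
  intro p _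
  rw [omega_eq]

lemma V_HL (a b c : ℤ) (X r : ℕ) :
    V a b c X r = HL a b c X r * Pool.Agent.H373R2.T7.Vz ⌊(X : ℝ) ^ (1 / (r : ℝ))⌋₊ := by
  unfold V HL Pool.Agent.H373R2.T7.Vz
  have e : Pool.Agent.H373R2.T7.pz ⌊(X : ℝ) ^ (1 / (r : ℝ))⌋₊ = P X r := rfl
  rw [e, ← Finset.prod_mul_distrib]
  apply Finset.prod_congr rfl
  intro p hp
  have hp2 : (2 : ℝ) ≤ p := by exact_mod_cast (mem_filter.1 hp).2.two_le
  have h1 : (1 : ℝ) - 1 / p ≠ 0 := by
    have : (1 : ℝ) / p ≤ 1 / 2 := one_div_le_one_div_of_le (by norm_num) hp2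
    linarith
  rw [div_mul_cancel₀ _ h1]

open Classical in
lemma Near_eq (a b c : ℤ) (X r k T u Y : ℕ) :
    Near a b c X r k T u Y = Pool.Agent.TH464.PO.Pk (Pool.Agent.TH464.PO.Sf
      (Pool.Agent.W123.RU.Poly.Q (Pool.Agent.TH464.PO.qs a b c)) ⌊(X : ℝ) ^ (1 / (r : ℝ))⌋₊) k T u Y := by
  have e : Pool.Agent.TH464.PO.Sf
      (Pool.Agent.W123.RU.Poly.Q (Pool.Agent.TH464.PO.qs a b c)) ⌊(X : ℝ) ^ (1 / (r : ℝ))⌋₊ =
      Good a b c X r := funext fun n => propext (good_iff a b c X r n).symm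
  rw [e]
  rfl

/-- **The gaps between the almost prime values of quadratic polynomials, uniformly in the
polynomial.** For all `A`, `θ, ε > 0`, `x₀`, `k₀` there is `r₀` such that for all `r ≥ r₀` and all
`B` there are `κ > 0`, `X₀` such that for all `X ≥ X₀` and all admissible `(a, b, c)` with
`a, |b|, |c| ≤ X ^ A` and truncated constant `HL ≤ B`: (1) for all good `t ≤ X ^ A` the value
`a t ^ 2 + b t + c` is not zero and has at most `(3 A + 2) r` prime factors; (2)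
`V ≥ κ / (log X) ^ 3`; (3) in every interval `(u, u + Y]` with `Y ≥ X ^ θ`, for all `T` and all
`k ≤ k₀` (and for all `k` if `T V ≤ x₀`), the number of good `t` with fewer than `k` good numbers in
`[t - T, t)` is `Y V (e ^ (-TV) ∑ j < k, (TV) ^ j / j! + δ)` with `|δ| ≤ ε`. -/
theorem result (A : ℕ) (θ ε x₀ : ℝ) (k₀ : ℕ) (hθ : 0 < θ) (hε : 0 < ε) :
    ∃ r₀ : ℕ, ∀ r : ℕ, r₀ ≤ r → ∀ B : ℝ, ∃ κ : ℝ, 0 < κ ∧ ∃ X₀ : ℕ, ∀ X : ℕ, X₀ ≤ X →
      ∀ a b c : ℤ, 0 < a → (∀ d : ℤ, d ∣ a → d ∣ b → d ∣ c → IsUnit d) →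
      ¬ (Even (a + b) ∧ Even c) → ¬ IsSquare (b ^ 2 - 4 * a * c) →
      a ≤ (X : ℤ) ^ A → |b| ≤ (X : ℤ) ^ A → |c| ≤ (X : ℤ) ^ A → HL a b c X r ≤ B →
      (∀ t : ℕ, t ≤ X ^ A → Good a b c X r t → a * (t : ℤ) ^ 2 + b * t + c ≠ 0 ∧
        (a * (t : ℤ) ^ 2 + b * t + c).natAbs.primeFactorsList.length ≤ (3 * A + 2) * r) ∧
      κ / Real.log X ^ 3 ≤ V a b c X r ∧
      ∀ u Y k T : ℕ, (X : ℝ) ^ θ ≤ Y → (k ≤ k₀ ∨ T * V a b c X r ≤ x₀) →
        |(Near a b c X r k T u Y : ℝ) - Y * V a b c X r *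
            ∑ j ∈ range k, Real.exp (-(T * V a b c X r)) * (T * V a b c X r) ^ j / j.factorial| ≤
          ε * (Y * V a b c X r) := by
  obtain ⟨r1, h1⟩ := Pool.Agent.Y879.GL.quad_unif A θ hθ k₀ x₀ ε hε
  refine ⟨max r1 2, ?_⟩
  intro r hr B
  have hr2 : 2 ≤ r := (le_max_right _ _).trans hr
  obtain ⟨v, hv, hVlow⟩ := Pool.Agent.Y879.GL.V_low_log (1 * 2 + 1) r hr2
  obtain ⟨C, hC, hVz⟩ := Pool.Agent.Y879.GL.Vz_up r hr2
  refine ⟨v, hv, ?_⟩
  obtain ⟨X0, hX0⟩ := eventually_atTop.1 ((h1 r ((le_max_left _ _).trans hr) B).and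
    ((Pool.Agent.Y879.GL.level_ok r hr2).and (hVlow.and hVz)))
  refine ⟨max X0 2, ?_⟩
  intro X hX a b c ha hg hpar hD haX hbX hcX hHL
  obtain ⟨h2, h3, h4, h5⟩ := hX0 X ((le_max_left _ _).trans hX)
  have hX2 : 2 ≤ X := (le_max_right _ _).trans hX
  have hg' : ∀ p : ℕ, p.Prime → ¬ ((p : ℤ) ∣ a ∧ (p : ℤ) ∣ b ∧ (p : ℤ) ∣ c) := by
    rintro p hp ⟨g1, g2, g3⟩
    exact (Nat.prime_iff_prime_int.1 hp).not_unit (hg p g1 g2 g3)
  have haX' : |a| ≤ (X : ℤ) ^ A := by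
    rw [abs_of_pos ha]
    exact haX
  have hVle : Pool.Agent.W123.RP.Vq
      (Pool.Agent.W123.RU.Poly.Q (Pool.Agent.TH464.PO.qs a b c)) ⌊(X : ℝ) ^ (1 / (r : ℝ))⌋₊ ≤
      B * Pool.Agent.H373R2.T7.Vz ⌊(X : ℝ) ^ (1 / (r : ℝ))⌋₊ := by
    rw [← V_eq, V_HL]
    exact mul_le_mul_of_nonneg_right hHL h5.1
  have h6 := h2 a b c ha hg' hpar hD haX' hbX hcX hVle
  have hXr : (2 : ℝ) ≤ X := by exact_mod_cast hX2
  have hX0' : (0 : ℝ) < X := by linarith
  have hX1 : (1 : ℝ) ≤ X := by linarith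
  have hus : Pool.Agent.Y879.GL.US 1 2 ((X : ℝ) ^ A) 1 (Pool.Agent.TH464.PO.qs a b c) := by
    apply Pool.Agent.Y879.GL.us_single (Pool.Agent.TH464.PW.quad a b c)
      (Pool.Agent.TH464.PW.quad_irr a b c ha.ne' hg' hD)
    · rw [Pool.Agent.TH464.PW.quad_deg a b c ha.ne']
      norm_num
    · rw [Pool.Agent.TH464.PW.quad_deg a b c ha.ne']
    · intro n
      exact_mod_cast Pool.Agent.Y879.GL.quad_coeff a b c n ((X : ℤ) ^ A) haX' hbX hcX
    · intro p hp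
      exact Pool.Agent.TH464.PW.quad_adm a b c hg' hpar p hp
  rw [V_eq]
  refine ⟨?_, ?_, ?_⟩
  · intro t ht hgood
    have hz3 : (3 : ℝ) ≤ (X : ℝ) ^ (1 / (r : ℝ)) := by
      have h4 : ((3 : ℕ) : ℝ) ≤ (X : ℝ) ^ (1 / (r : ℝ)) :=
        (Nat.le_floor_iff (by positivity)).1 h3.1
      exact_mod_cast h4
    have hne : a * (t : ℤ) ^ 2 + b * t + c ≠ 0 := by
      intro h0
      exact hgood 2 Nat.prime_two (by push_cast; linarith) (by rw [h0]; exact dvd_zero _)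
    refine ⟨hne, ?_⟩
    have hP1 : (1 : ℝ) ≤ (X : ℝ) ^ A := one_le_pow₀ hX1
    have ha1 : |(a : ℝ)| ≤ (X : ℝ) ^ A := by exact_mod_cast haX'
    have hb1 : |(b : ℝ)| ≤ (X : ℝ) ^ A := by exact_mod_cast hbX
    have hc1 : |(c : ℝ)| ≤ (X : ℝ) ^ A := by exact_mod_cast hcX
    have ht1 : (t : ℝ) ≤ (X : ℝ) ^ A := by exact_mod_cast ht
    have ht0 : (0 : ℝ) ≤ t := Nat.cast_nonneg _
    have hval : (((a * (t : ℤ) ^ 2 + b * t + c).natAbs : ℕ) : ℝ) ≤
        ((X : ℝ) ^ (1 / (r : ℝ))) ^ ((3 * A + 2) * r) := by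
      rw [Nat.cast_natAbs, Int.cast_abs]
      push_cast
      have hrne : (r : ℝ) ≠ 0 := by
        have : (2 : ℝ) ≤ r := by exact_mod_cast hr2
        linarith
      have h7 : ((X : ℝ) ^ (1 / (r : ℝ))) ^ ((3 * A + 2) * r) = (X : ℝ) ^ (3 * A + 2) := by
        rw [← Real.rpow_natCast ((X : ℝ) ^ (1 / (r : ℝ))), ← Real.rpow_mul hX0'.le,
          ← Real.rpow_natCast]
        congr 1
        push_cast
        field_simp
      rw [h7]
      obtain ⟨W, hW⟩ : ∃ W : ℝ, W = (X : ℝ) ^ A := ⟨_, rfl⟩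
      rw [← hW] at hP1 ha1 hb1 hc1 ht1
      have h8 : (X : ℝ) ^ (3 * A + 2) = W * W * W * (X * X) := by
        rw [hW]
        ring
      rw [h8]
      have f1 : |(a : ℝ) * t ^ 2| ≤ W * W * W := by
        rw [abs_mul, abs_of_nonneg (by positivity : (0 : ℝ) ≤ (t : ℝ) ^ 2)]
        calc |(a : ℝ)| * (t : ℝ) ^ 2 ≤ W * (W ^ 2) :=
              mul_le_mul ha1 (pow_le_pow_left₀ ht0 ht1 2) (by positivity) (by linarith)
          _ = W * W * W := by ring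
      have f2 : |(b : ℝ) * t| ≤ W * W * W := by
        rw [abs_mul, abs_of_nonneg ht0]
        calc |(b : ℝ)| * (t : ℝ) ≤ W * W := mul_le_mul hb1 ht1 ht0 (by linarith)
          _ ≤ W * W * W := le_mul_of_one_le_right (by positivity) hP1
      have f3 : |(c : ℝ)| ≤ W * W * W := by
        refine hc1.trans ?_
        calc W ≤ W * W := le_mul_of_one_le_right (by linarith) hP1
          _ ≤ W * W * W := le_mul_of_one_le_right (by positivity) hP1
      have f4 : (4 : ℝ) ≤ X * X := by nlinarith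
      have f5 : 0 ≤ W * W * W := by positivity
      calc |(a : ℝ) * t ^ 2 + b * t + c| ≤ |(a : ℝ) * t ^ 2| + |(b : ℝ) * t| + |(c : ℝ)| :=
            abs_add_three _ _ _
        _ ≤ W * W * W * 4 := by linarith
        _ ≤ W * W * W * (X * X) := mul_le_mul_of_nonneg_left f4 f5
    refine Pool.Agent.Y879.GL.few_of_rough ((X : ℝ) ^ (1 / (r : ℝ))) (by linarith) _ ((3 * A + 2) * r)
      (Int.natAbs_ne_zero.2 hne) hval ?_
    intro q hq hqd
    by_contra hcon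
    rw [not_lt] at hcon
    exact hgood q hq hcon (Int.natCast_dvd.2 hqd)
  · exact h4 _ (Pool.Agent.Y879.GL.us_perB hus) (Pool.Agent.Y879.GL.us_adm hus)
  · intro u Y k T hY hT
    rw [Near_eq]
    exact h6 u Y hY k T hT

end Pool.Agent.Results.MP_a17b09_nt.UniformGammaLaw
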